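import Mathlib

/-!
# Metric mean dimension of interval maps that are Hoelder for every exponent

We prove that a map `φ : [0,1] → [0,1]` which is `α`-Hoelder continuous for every
`α ∈ (0,1)` has (upper) metric mean dimension `0`.
-/

open Filter Topology Set

namespace Pool.Agent.Results.MP_d02d3c_an.HolderZero

/-- The dynamical distance `d_n(x,y) = max_{0 ≤ k < n} |φ^k(x) - φ^k(y)|` on `[0,1]`. -/
noncomputable def dynDist (φ : unitInterval → unitInterval) (n : ℕ) (x y : unitInterval) : ℝ :=
  ⨆ k : Fin n, |(φ^[(k : ℕ)] x : ℝ) - (φ^[(k : ℕ)] y : ℝ)|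

/-- `E` is `(n,ε)`-separated: `d_n(x,y) > ε` for all distinct `x, y ∈ E`. -/
def IsSeparated (φ : unitInterval → unitInterval) (n : ℕ) (ε : ℝ)
    (E : Set unitInterval) : Prop :=
  ∀ x ∈ E, ∀ y ∈ E, x ≠ y → ε < dynDist φ n x y

/-- `s(n,ε)`: the largest cardinality of an `(n,ε)`-separated set (a supremum in `ℕ∞`). -/
noncomputable def maxSep (φ : unitInterval → unitInterval) (n : ℕ) (ε : ℝ) : ℕ∞ :=
  ⨆ E : {E : Set unitInterval // IsSeparated φ n ε E}, E.1.encard

/-- `h(φ,ε) = limsup_{n → ∞} (1/n) log s(n,ε)`, in the extended reals. -/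
noncomputable def entropyAt (φ : unitInterval → unitInterval) (ε : ℝ) : EReal :=
  limsup (fun n : ℕ => ENNReal.log ((maxSep φ n ε : ℕ∞) : ENNReal) / (n : EReal)) atTop

/-- The (upper) metric mean dimension of `φ` on `[0,1]` with the usual metric:
`limsup_{ε → 0+} h(φ,ε) / |log ε|`, in the extended reals. -/
noncomputable def upperMetricMeanDim (φ : unitInterval → unitInterval) : EReal :=
  limsup (fun ε : ℝ => entropyAt φ ε / ((|Real.log ε| : ℝ) : EReal)) (𝓝[>] 0)

/-- Index of the cell `[a/N, (a+1)/N)` that contains `x`. -/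
noncomputable def cell (N : ℕ) (x : unitInterval) : ℕ := ⌊(N : ℝ) * (x : ℝ)⌋₊

lemma abs_sub_lt_of_cell_eq {N : ℕ} {x y : unitInterval} (h : cell N x = cell N y) :
    |(N : ℝ) * x - N * y| < 1 := by
  unfold cell at h
  have hx0 : (0 : ℝ) ≤ N * x := mul_nonneg (Nat.cast_nonneg _) x.2.1
  have hy0 : (0 : ℝ) ≤ N * y := mul_nonneg (Nat.cast_nonneg _) y.2.1
  have h1 := Nat.floor_le hx0
  have h2 := Nat.lt_floor_add_one ((N : ℝ) * (x : ℝ))
  have h3 := Nat.floor_le hy0
  have h4 := Nat.lt_floor_add_one ((N : ℝ) * (y : ℝ))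
  rw [h] at h1 h2
  rw [abs_lt]
  constructor <;> linarith

/-- The itinerary of `x` up to time `n` (coded as a function on `ℕ`, zero from `n` on). -/
noncomputable def itin (φ : unitInterval → unitInterval) (N n : ℕ) (x : unitInterval) : ℕ → ℕ :=
  fun k => if k < n then cell N (φ^[k] x) else 0

/-- Truncation of a sequence at `n`. -/
def trunc (n : ℕ) (g : ℕ → ℕ) : ℕ → ℕ := fun k => if k < n then g k else 0

lemma trunc_itin (φ : unitInterval → unitInterval) (N n : ℕ) (x : unitInterval) :
    trunc n (itin φ N (n + 1) x) = itin φ N n x := by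
  funext k
  unfold trunc itin
  by_cases hk : k < n
  · simp [hk, Nat.lt_succ_of_lt hk]
  · simp [hk]

/-- Number of cells that the image of one cell can meet. -/
lemma card_image_cell_le {φ : unitInterval → unitInterval} {N : ℕ} {L : ℝ}
    (hL0 : 0 ≤ L)
    (hL : ∀ x y : unitInterval, cell N x = cell N y → |(N : ℝ) * φ x - N * φ y| ≤ L)
    (F : Finset unitInterval) (a : ℕ) (hF : ∀ x ∈ F, cell N x = a) :
    (((F.image fun x => cell N (φ x)).card : ℕ) : ℝ) ≤ 2 * L + 2 := by
  classical
  rcases F.eq_empty_or_nonempty with rfl | ⟨x0, hx0⟩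
  · simp; linarith
  · set u : ℝ := N * φ x0 with hu
    have hu0 : 0 ≤ u := mul_nonneg (Nat.cast_nonneg _) (φ x0).2.1
    have hsub : (F.image fun x => cell N (φ x)) ⊆ Finset.Icc ⌊u - L⌋₊ ⌊u + L⌋₊ := by
      intro b hb
      rw [Finset.mem_image] at hb
      obtain ⟨x, hx, rfl⟩ := hb
      have h := hL x x0 ((hF x hx).trans (hF x0 hx0).symm)
      rw [abs_le] at h
      rw [Finset.mem_Icc]
      unfold cell
      constructor
      · apply Nat.floor_le_floor; linarith [h.1]
      · apply Nat.floor_le_floor; linarith [h.2]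
    have hcard : ((F.image fun x => cell N (φ x)).card) ≤ ⌊u + L⌋₊ + 1 - ⌊u - L⌋₊ := by
      have := Finset.card_le_card hsub
      rwa [Nat.card_Icc] at this
    have hle : ⌊u - L⌋₊ ≤ ⌊u + L⌋₊ + 1 := by
      have : ⌊u - L⌋₊ ≤ ⌊u + L⌋₊ := Nat.floor_le_floor (by linarith)
      omega
    have hcard' : (((F.image fun x => cell N (φ x)).card : ℕ) : ℝ) ≤
        (⌊u + L⌋₊ : ℝ) + 1 - ⌊u - L⌋₊ := by
      have h2 : (((F.image fun x => cell N (φ x)).card : ℕ) : ℝ) ≤
        ((⌊u + L⌋₊ + 1 - ⌊u - L⌋₊ : ℕ) : ℝ) := by exact_mod_cast hcard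
      rw [Nat.cast_sub hle] at h2
      push_cast at h2
      exact h2
    have h3 : (⌊u + L⌋₊ : ℝ) ≤ u + L := Nat.floor_le (by linarith)
    have h4 : u - L < ⌊u - L⌋₊ + 1 := Nat.lt_floor_add_one _
    linarith

open scoped Classical in
/-- Counting itineraries. -/
lemma card_itin_le {φ : unitInterval → unitInterval} {N M : ℕ} {L : ℝ}
    (hL0 : 0 ≤ L) (hM : 2 * L + 2 ≤ M)
    (hL : ∀ x y : unitInterval, cell N x = cell N y → |(N : ℝ) * φ x - N * φ y| ≤ L)
    (E : Finset unitInterval) (n : ℕ) :
    (E.image (itin φ N (n + 1))).card ≤ (N + 1) * M ^ n := by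
  induction n with
  | zero =>
    have : (E.image (itin φ N (0 + 1))) ⊆
        (Finset.range (N + 1)).image (fun a => fun k : ℕ => if k < 1 then a else 0) := by
      intro g hg
      rw [Finset.mem_image] at hg
      obtain ⟨x, hx, rfl⟩ := hg
      rw [Finset.mem_image]
      refine ⟨cell N x, ?_, ?_⟩
      · rw [Finset.mem_range]
        unfold cell
        have h1 : (N : ℝ) * x ≤ N := by
          have := x.2.2
          have h0 : (0 : ℝ) ≤ N := Nat.cast_nonneg _
          nlinarith
        have h2 : ⌊(N : ℝ) * x⌋₊ ≤ N := by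
          calc ⌊(N : ℝ) * x⌋₊ ≤ ⌊(N : ℝ)⌋₊ := Nat.floor_le_floor h1
            _ = N := Nat.floor_natCast N
        omega
      · funext k
        unfold itin
        by_cases hk : k < 1
        · have : k = 0 := by omega
          subst this
          simp
        · simp [hk]
    calc (E.image (itin φ N (0 + 1))).card
        ≤ ((Finset.range (N + 1)).image (fun a => fun k : ℕ => if k < 1 then a else 0)).card :=
          Finset.card_le_card this
      _ ≤ (Finset.range (N + 1)).card := Finset.card_image_le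
      _ = (N + 1) * M ^ 0 := by simp
  | succ n ih =>
    have key : (E.image (itin φ N (n + 1 + 1))).card ≤ M * (E.image (itin φ N (n + 1))).card := by
      apply Finset.card_le_mul_card_image_of_maps_to (f := trunc (n + 1))
      · intro g hg
        rw [Finset.mem_image] at hg ⊢
        obtain ⟨x, hx, rfl⟩ := hg
        exact ⟨x, hx, (trunc_itin φ N (n + 1) x).symm⟩
      · intro w hw
        -- fibre over `w`
        set F : Finset unitInterval :=
          (E.filter fun x => itin φ N (n + 1) x = w).image (φ^[n]) with hF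
        have hFcell : ∀ y ∈ F, cell N y = w n := by
          intro y hy
          rw [hF, Finset.mem_image] at hy
          obtain ⟨x, hx, rfl⟩ := hy
          rw [Finset.mem_filter] at hx
          have := congrFun hx.2 n
          simpa [itin] using this
        have hc := card_image_cell_le hL0 hL F (w n) hFcell
        have hc' : (F.image fun x => cell N (φ x)).card ≤ M := by
          exact_mod_cast hc.trans hM
        refine le_trans ?_ hc'
        -- the value at `n+1` determines the element of the fibre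
        apply Finset.card_le_card_of_injOn (fun g => g (n + 1))
        · intro g hg
          rw [Finset.mem_coe, Finset.mem_filter, Finset.mem_image] at hg
          obtain ⟨⟨x, hx, rfl⟩, hgw⟩ := hg
          rw [trunc_itin] at hgw
          rw [Finset.mem_coe, Finset.mem_image]
          refine ⟨φ^[n] x, ?_, ?_⟩
          · rw [hF, Finset.mem_image]
            exact ⟨x, Finset.mem_filter.2 ⟨hx, hgw⟩, rfl⟩
          · simp [itin, Function.iterate_succ_apply']
        · intro g hg g' hg' hgg'
          rw [Finset.mem_coe, Finset.mem_filter, Finset.mem_image] at hg hg'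
          obtain ⟨⟨x, hx, rfl⟩, hgw⟩ := hg
          obtain ⟨⟨x', hx', rfl⟩, hgw'⟩ := hg'
          rw [trunc_itin] at hgw hgw'
          funext k
          rcases lt_trichotomy k (n + 1) with hk | hk | hk
          · have h1 := congrFun (hgw.trans hgw'.symm) k
            simp only [itin, hk, if_true] at h1
            simp only [itin, Nat.lt_succ_of_lt hk, if_true]
            exact h1
          · subst hk; exact hgg'
          · have : ¬ k < n + 1 + 1 := by omega
            simp [itin, this]
    calc (E.image (itin φ N (n + 1 + 1))).card ≤ M * (E.image (itin φ N (n + 1))).card := key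
      _ ≤ M * ((N + 1) * M ^ n) := Nat.mul_le_mul_left _ ih
      _ = (N + 1) * M ^ (n + 1) := by ring

lemma maxSep_succ_le {φ : unitInterval → unitInterval} {N M : ℕ} {L ε : ℝ}
    (hN : 0 < N) (hε : 1 / (N : ℝ) ≤ ε)
    (hL0 : 0 ≤ L) (hM : 2 * L + 2 ≤ M)
    (hL : ∀ x y : unitInterval, cell N x = cell N y → |(N : ℝ) * φ x - N * φ y| ≤ L)
    (n : ℕ) :
    maxSep φ (n + 1) ε ≤ (((N + 1) * M ^ n : ℕ) : ℕ∞) := by
  classical
  unfold maxSep
  apply iSup_le
  rintro ⟨E, hE⟩
  -- it suffices to bound finite subsets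
  have hfin : ∀ F : Finset unitInterval, (F : Set unitInterval) ⊆ E →
      F.card ≤ (N + 1) * M ^ n := by
    intro F hF
    have hinj : Set.InjOn (itin φ N (n + 1)) (F : Set unitInterval) := by
      intro x hx y hy hxy
      by_contra hne
      have h1 := hE x (hF hx) y (hF hy) hne
      have h2 : dynDist φ (n + 1) x y ≤ ε := by
        unfold dynDist
        apply ciSup_le
        intro k
        have h3 := congrFun hxy k
        simp only [itin, k.2, if_true] at h3
        have h4 := abs_sub_lt_of_cell_eq h3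
        rw [← mul_sub, abs_mul, Nat.abs_cast] at h4
        have hNpos : (0 : ℝ) < N := by exact_mod_cast hN
        have h5 : |((φ^[(k : ℕ)] x : unitInterval) : ℝ) - (φ^[(k : ℕ)] y : unitInterval)| < 1 / N := by
          rw [lt_div_iff₀ hNpos]
          linarith
        linarith
      linarith
    calc F.card = (F.image (itin φ N (n + 1))).card := (Finset.card_image_of_injOn hinj).symm
      _ ≤ (N + 1) * M ^ n := card_itin_le hL0 hM hL F n
  by_contra hcon
  push Not at hcon
  -- `E` has more than `(N+1) * M^n` elements, so it has a finite subset with that many plus one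
  have hcon' : (((N + 1) * M ^ n + 1 : ℕ) : ℕ∞) ≤ E.encard := by
    have := Order.add_one_le_of_lt hcon
    simpa using this
  obtain ⟨T, hTE, hT⟩ := Set.exists_subset_encard_eq hcon'
  have hTfin : T.Finite := Set.finite_of_encard_eq_coe hT
  have h6 := hfin hTfin.toFinset (by simpa using hTE)
  have h7 : (hTfin.toFinset.card : ℕ∞) = (((N + 1) * M ^ n + 1 : ℕ) : ℕ∞) := by
    rw [← hT, hTfin.encard_eq_coe_toFinset_card]
  have h8 : hTfin.toFinset.card = (N + 1) * M ^ n + 1 := by exact_mod_cast h7
  omega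

lemma one_le_maxSep (φ : unitInterval → unitInterval) (n : ℕ) (ε : ℝ) :
    1 ≤ maxSep φ n ε := by
  unfold maxSep
  have hs : IsSeparated φ n ε {(0 : unitInterval)} := by
    intro x hx y hy hxy
    simp only [Set.mem_singleton_iff] at hx hy
    exact absurd (hx.trans hy.symm) hxy
  have := le_iSup (fun E : {E : Set unitInterval // IsSeparated φ n ε E} => E.1.encard)
    ⟨{(0 : unitInterval)}, hs⟩
  simpa using this

lemma entropyAt_nonneg (φ : unitInterval → unitInterval) (ε : ℝ) : 0 ≤ entropyAt φ ε := by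
  unfold entropyAt
  apply le_limsup_of_frequently_le
  · apply Frequently.of_forall
    intro n
    apply EReal.div_nonneg
    · rw [ENNReal.zero_le_log_iff]
      exact_mod_cast one_le_maxSep φ n ε
    · exact_mod_cast Nat.zero_le n
  · isBoundedDefault

lemma upperMetricMeanDim_nonneg (φ : unitInterval → unitInterval) :
    0 ≤ upperMetricMeanDim φ := by
  unfold upperMetricMeanDim
  apply le_limsup_of_frequently_le
  · apply Frequently.of_forall
    intro ε
    apply EReal.div_nonneg (entropyAt_nonneg φ ε)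
    exact_mod_cast abs_nonneg _
  · isBoundedDefault

lemma entropyAt_le {φ : unitInterval → unitInterval} {N M : ℕ} {L ε : ℝ}
    (hN : 0 < N) (hε : 1 / (N : ℝ) ≤ ε)
    (hL0 : 0 ≤ L) (hM : 2 * L + 2 ≤ M)
    (hL : ∀ x y : unitInterval, cell N x = cell N y → |(N : ℝ) * φ x - N * φ y| ≤ L) :
    entropyAt φ ε ≤ ((Real.log M : ℝ) : EReal) := by
  have hMpos : 0 < M := by
    have : (0 : ℝ) < M := by linarith
    exact_mod_cast this
  have hMpos' : (0 : ℝ) < M := by exact_mod_cast hMpos
  have hNpos : (0 : ℝ) < (N : ℝ) + 1 := by positivity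
  unfold entropyAt
  -- shift the index by one
  have hshift : limsup (fun n : ℕ => ENNReal.log ((maxSep φ n ε : ℕ∞) : ENNReal) / (n : EReal))
      atTop = limsup (fun n : ℕ =>
        ENNReal.log ((maxSep φ (n + 1) ε : ℕ∞) : ENNReal) / ((n + 1 : ℕ) : EReal)) atTop := by
    exact (Filter.limsup_nat_add
      (fun n : ℕ => ENNReal.log ((maxSep φ n ε : ℕ∞) : ENNReal) / (n : EReal)) 1).symm
  rw [hshift]
  have hbound : ∀ n : ℕ, ENNReal.log ((maxSep φ (n + 1) ε : ℕ∞) : ENNReal) / ((n + 1 : ℕ) : EReal)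
      ≤ (((Real.log (N + 1) + n * Real.log M) / (n + 1) : ℝ) : EReal) := by
    intro n
    have h1 : ((maxSep φ (n + 1) ε : ℕ∞) : ENNReal) ≤
        ENNReal.ofReal (((N : ℝ) + 1) * (M : ℝ) ^ n) := by
      have h := maxSep_succ_le hN hε hL0 hM hL n
      have h' : ((maxSep φ (n + 1) ε : ℕ∞) : ENNReal) ≤ (((((N + 1) * M ^ n : ℕ)) : ℕ∞) : ENNReal) :=
        by exact_mod_cast h
      refine h'.trans ?_
      rw [ENat.toENNReal_coe]
      rw [← ENNReal.ofReal_natCast]
      apply ENNReal.ofReal_le_ofReal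
      push_cast
      exact le_rfl
    have h2 : ENNReal.log ((maxSep φ (n + 1) ε : ℕ∞) : ENNReal) ≤
        ((Real.log (N + 1) + n * Real.log M : ℝ) : EReal) := by
      refine (ENNReal.log_monotone h1).trans ?_
      rw [ENNReal.log_ofReal_of_pos (by positivity)]
      rw [Real.log_mul (by positivity) (by positivity), Real.log_pow]
    have hn : (0 : EReal) ≤ ((n + 1 : ℕ) : EReal) := by exact_mod_cast Nat.zero_le _
    refine (EReal.div_le_div_right_of_nonneg hn h2).trans ?_
    rw [EReal.coe_div]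
    apply le_of_eq
    congr 1
    push_cast
    rfl
  have htend : Tendsto (fun n : ℕ => (((Real.log (N + 1) + n * Real.log M) / (n + 1) : ℝ) : EReal))
      atTop (𝓝 ((Real.log M : ℝ) : EReal)) := by
    apply (continuous_coe_real_ereal.tendsto _).comp
    have h1 : Tendsto (fun n : ℕ => Real.log M + (Real.log (N + 1) - Real.log M) / ((n : ℝ) + 1))
        atTop (𝓝 (Real.log M + 0)) := by
      apply Tendsto.add tendsto_const_nhds
      apply Tendsto.div_atTop tendsto_const_nhds
      exact tendsto_atTop_add_const_right _ _ tendsto_natCast_atTop_atTop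
    rw [add_zero] at h1
    refine h1.congr ?_
    intro n
    have : (n : ℝ) + 1 ≠ 0 := by positivity
    field_simp
    ring
  calc limsup (fun n : ℕ =>
        ENNReal.log ((maxSep φ (n + 1) ε : ℕ∞) : ENNReal) / ((n + 1 : ℕ) : EReal)) atTop
      ≤ limsup (fun n : ℕ => (((Real.log (N + 1) + n * Real.log M) / (n + 1) : ℝ) : EReal)) atTop :=
        limsup_le_limsup (Eventually.of_forall hbound)
    _ = ((Real.log M : ℝ) : EReal) := htend.limsup_eq

/-- An `α`-Hoelder map of `[0,1]` has upper metric mean dimension at most `1 - α`. -/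
theorem upperMetricMeanDim_le {φ : unitInterval → unitInterval} {α C : ℝ}
    (hα0 : 0 < α) (hα1 : α < 1) (hC : 0 < C)
    (hφ : ∀ x y : unitInterval, |(φ x : ℝ) - φ y| ≤ C * |(x : ℝ) - y| ^ α) :
    upperMetricMeanDim φ ≤ ((1 - α : ℝ) : EReal) := by
  -- key estimate for a single `ε`
  have key : ∀ ε : ℝ, 0 < ε → ε < 1 →
      entropyAt φ ε ≤ (((1 - α) * |Real.log ε| + Real.log (4 * C + 3) : ℝ) : EReal) := by
    intro ε hε0 hε1
    set N : ℕ := ⌈1 / ε⌉₊ with hNdef
    have hNpos : 0 < N := Nat.ceil_pos.2 (by positivity)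
    have hNpos' : (0 : ℝ) < N := by exact_mod_cast hNpos
    have hN1 : 1 / ε ≤ N := Nat.le_ceil _
    have hN2 : (N : ℝ) < 1 / ε + 1 := Nat.ceil_lt_add_one (by positivity)
    have hNε : 1 / (N : ℝ) ≤ ε := by
      rw [div_le_iff₀ hNpos']
      rw [div_le_iff₀ hε0] at hN1
      linarith
    have h1ε : 1 < 1 / ε := by
      rw [lt_div_iff₀ hε0]; linarith
    have hN3 : (N : ℝ) ≤ 2 / ε := by
      have : 2 / ε = 1 / ε + 1 / ε := by ring
      linarith
    set L : ℝ := C * (N : ℝ) ^ (1 - α) with hLdef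
    have hL0 : 0 ≤ L := by positivity
    set M : ℕ := ⌈2 * L + 2⌉₊ with hMdef
    have hM : 2 * L + 2 ≤ (M : ℝ) := Nat.le_ceil _
    have hM2 : (M : ℝ) < 2 * L + 2 + 1 := Nat.ceil_lt_add_one (by positivity)
    have hL : ∀ x y : unitInterval, cell N x = cell N y → |(N : ℝ) * φ x - N * φ y| ≤ L := by
      intro x y hxy
      have h1 := abs_sub_lt_of_cell_eq hxy
      rw [← mul_sub, abs_mul, Nat.abs_cast] at h1 ⊢
      have h2 : |(x : ℝ) - y| ≤ 1 / N := by
        rw [le_div_iff₀ hNpos']; linarith
      have h3 : |(x : ℝ) - y| ^ α ≤ (1 / (N : ℝ)) ^ α :=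
        Real.rpow_le_rpow (abs_nonneg _) h2 hα0.le
      calc (N : ℝ) * |(φ x : ℝ) - φ y| ≤ N * (C * |(x : ℝ) - y| ^ α) := by
            apply mul_le_mul_of_nonneg_left (hφ x y) hNpos'.le
        _ ≤ N * (C * (1 / (N : ℝ)) ^ α) := by
            apply mul_le_mul_of_nonneg_left _ hNpos'.le
            exact mul_le_mul_of_nonneg_left h3 hC.le
        _ = L := by
            rw [hLdef, Real.rpow_sub hNpos', Real.rpow_one, Real.div_rpow zero_le_one hNpos'.le,
              Real.one_rpow]
            ring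
    refine (entropyAt_le hNpos hNε hL0 hM hL).trans ?_
    rw [EReal.coe_le_coe_iff]
    have hMpos : (0 : ℝ) < M := by linarith
    -- bound `M`
    have hεα : (1 : ℝ) ≤ (1 / ε) ^ (1 - α) := Real.one_le_rpow h1ε.le (by linarith)
    have hNα : (N : ℝ) ^ (1 - α) ≤ 2 * (1 / ε) ^ (1 - α) := by
      calc (N : ℝ) ^ (1 - α) ≤ (2 / ε) ^ (1 - α) :=
            Real.rpow_le_rpow hNpos'.le hN3 (by linarith)
        _ = 2 ^ (1 - α) * (1 / ε) ^ (1 - α) := by
            rw [← Real.mul_rpow (by norm_num) (by positivity)]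
            congr 1
            ring
        _ ≤ 2 * (1 / ε) ^ (1 - α) := by
            apply mul_le_mul_of_nonneg_right _ (by positivity)
            calc (2 : ℝ) ^ (1 - α) ≤ 2 ^ (1 : ℝ) :=
                  Real.rpow_le_rpow_of_exponent_le (by norm_num) (by linarith)
              _ = 2 := Real.rpow_one 2
    have hMle : (M : ℝ) ≤ (4 * C + 3) * (1 / ε) ^ (1 - α) := by
      have : L ≤ C * (2 * (1 / ε) ^ (1 - α)) := mul_le_mul_of_nonneg_left hNα hC.le
      nlinarith
    calc Real.log M ≤ Real.log ((4 * C + 3) * (1 / ε) ^ (1 - α)) :=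
          Real.log_le_log hMpos hMle
      _ = Real.log (4 * C + 3) + (1 - α) * Real.log (1 / ε) := by
          rw [Real.log_mul (by positivity) (by positivity), Real.log_rpow (by positivity)]
      _ = (1 - α) * |Real.log ε| + Real.log (4 * C + 3) := by
          rw [abs_of_neg (Real.log_neg hε0 hε1), one_div, Real.log_inv]
          ring
  unfold upperMetricMeanDim
  have hbound : ∀ᶠ ε : ℝ in 𝓝[>] 0, entropyAt φ ε / ((|Real.log ε| : ℝ) : EReal) ≤
      (((1 - α) + Real.log (4 * C + 3) / |Real.log ε| : ℝ) : EReal) := by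
    have hev : Ioo (0 : ℝ) 1 ∈ 𝓝[>] (0 : ℝ) := Ioo_mem_nhdsGT (by norm_num)
    filter_upwards [hev] with ε hε
    have hlog : 0 < |Real.log ε| := abs_pos.2 (Real.log_neg hε.1 hε.2).ne
    refine (EReal.div_le_div_right_of_nonneg (by exact_mod_cast hlog.le)
      (key ε hε.1 hε.2)).trans ?_
    rw [← EReal.coe_div, EReal.coe_le_coe_iff, add_div, mul_div_assoc, div_self hlog.ne', mul_one]
  have htend : Tendsto (fun ε : ℝ =>
      (((1 - α) + Real.log (4 * C + 3) / |Real.log ε| : ℝ) : EReal)) (𝓝[>] 0)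
      (𝓝 ((1 - α : ℝ) : EReal)) := by
    apply (continuous_coe_real_ereal.tendsto _).comp
    have h1 : Tendsto (fun ε : ℝ => (1 - α) + Real.log (4 * C + 3) / |Real.log ε|) (𝓝[>] 0)
        (𝓝 ((1 - α) + 0)) := by
      apply Tendsto.add tendsto_const_nhds
      apply Tendsto.div_atTop tendsto_const_nhds
      exact tendsto_abs_atBot_atTop.comp Real.tendsto_log_nhdsGT_zero
    rwa [add_zero] at h1
  calc limsup (fun ε : ℝ => entropyAt φ ε / ((|Real.log ε| : ℝ) : EReal)) (𝓝[>] 0)
      ≤ limsup (fun ε : ℝ => (((1 - α) + Real.log (4 * C + 3) / |Real.log ε| : ℝ) : EReal))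
          (𝓝[>] 0) := limsup_le_limsup hbound
    _ = ((1 - α : ℝ) : EReal) := htend.limsup_eq

/-- **Q1 is true.**  If `φ : [0,1] → [0,1]` is `α`-Hoelder continuous for every `α ∈ (0,1)`
(with a constant allowed to depend on `α`), then its (upper) metric mean dimension is `0`. -/
theorem result (φ : unitInterval → unitInterval)
    (hφ : ∀ α : ℝ, 0 < α → α < 1 → ∃ C : ℝ, 0 < C ∧
      ∀ x y : unitInterval, |(φ x : ℝ) - (φ y : ℝ)| ≤ C * |(x : ℝ) - (y : ℝ)| ^ α) :
    upperMetricMeanDim φ = 0 := by
  apply le_antisymm _ (upperMetricMeanDim_nonneg φ)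
  apply EReal.le_of_forall_lt_iff_le.1
  intro z hz
  have hz' : (0 : ℝ) < z := by exact_mod_cast hz
  rcases lt_or_ge z 1 with hz1 | hz1
  · obtain ⟨C, hC, h⟩ := hφ (1 - z) (by linarith) (by linarith)
    have := upperMetricMeanDim_le (by linarith) (by linarith) hC h
    simpa using this
  · obtain ⟨C, hC, h⟩ := hφ (1 / 2) (by norm_num) (by norm_num)
    have := upperMetricMeanDim_le (by norm_num) (by norm_num) hC h
    refine this.trans ?_
    exact_mod_cast (by linarith : (1 - 1 / 2 : ℝ) ≤ z)

end Pool.Agent.Results.MP_d02d3c_an.HolderZero
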